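import Pool.Agent.Helper45.SD.Goals

set_option autoImplicit false

/-!
# Assembly for question Q2 of MP_9415b6_co
-/

open Finset

namespace Pool.Agent.Helper45.SD

/-! ### Small `k` -/

theorem low_zero (hlow : G_LOW) (n : ℕ) [NeZero n] (k : ℕ) (hk : 1 ≤ k) (hkn : k < n)
    (h : ∀ q : ℕ, q.Prime → q ∣ n → k < q) : Des n k 0 := by
  obtain ⟨C, hC⟩ := hlow n k 0 hk hkn h
  have hunit : ∀ j ∈ Finset.Icc 1 k, IsUnit ((j : ℕ) : ZMod n) := by
    intro j hj
    rw [Finset.mem_Icc] at hj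
    rw [ZMod.isUnit_iff_coprime]
    refine Nat.Coprime.symm (Nat.coprime_of_dvd' fun q hq hqn hqj => ?_)
    have h1 := h q hq hqn
    have h2 := Nat.le_of_dvd (by omega) hqj
    omega
  have hempty : ∀ y : ZMod n, y ≠ 0 →
      ((Finset.Icc 1 k).filter (fun j => ((j : ℕ) : ZMod n) * y = 0)).card = 0 := by
    intro y hy
    rw [Finset.card_eq_zero, Finset.filter_eq_empty_iff]
    intro j hj h0
    exact hy ((hunit j hj).mul_right_eq_zero.mp h0)
  refine ⟨C.toNat, fun y hy => ?_⟩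
  have h1 := hC y hy
  rw [hempty y hy] at h1
  simp only [Nat.cast_zero, mul_zero, add_zero] at h1
  omega

theorem low_ne (hlow : G_LOW) (n : ℕ) [NeZero n] (k : ℕ) (x : ZMod n) (hk : 1 ≤ k)
    (hkn : k + 2 ≤ n) (h : ∀ q : ℕ, q.Prime → q ∣ n → k < q) (hd : Des n k x) : x = 0 := by
  by_contra hx
  obtain ⟨C, hC⟩ := hlow n k x hk (by omega) h
  obtain ⟨r, hr⟩ := hd
  have hunit : ∀ j ∈ Finset.Icc 1 k, IsUnit ((j : ℕ) : ZMod n) := by
    intro j hj
    rw [Finset.mem_Icc] at hj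
    rw [ZMod.isUnit_iff_coprime]
    refine Nat.Coprime.symm (Nat.coprime_of_dvd' fun q hq hqn hqj => ?_)
    have h1 := h q hq hqn
    have h2 := Nat.le_of_dvd (by omega) hqj
    omega
  have hpos : 0 < ((Finset.Icc 1 k).filter (fun j => ((j : ℕ) : ZMod n) * x = x)).card := by
    rw [Finset.card_pos]
    exact ⟨1, by rw [Finset.mem_filter, Finset.mem_Icc]; exact ⟨⟨le_rfl, hk⟩, by simp⟩⟩
  have hall : ∀ y : ZMod n, y ≠ 0 →
      ((Finset.Icc 1 k).filter (fun j => ((j : ℕ) : ZMod n) * y = x)).card =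
      ((Finset.Icc 1 k).filter (fun j => ((j : ℕ) : ZMod n) * x = x)).card := by
    intro y hy
    have h1 := hC y hy
    have h2 := hC x hx
    rw [hr y hy] at h1
    rw [hr x hx] at h2
    have h3 : ((-1 : ℤ) ^ (k - 1)) ≠ 0 := by positivity
    have h4 := h1.symm.trans h2
    have h5 := add_left_cancel h4
    have h6 := mul_left_cancel₀ h3 h5
    exact_mod_cast h6
  have hex : ∀ y : ZMod n, y ≠ 0 → ∃ j ∈ Finset.Icc 1 k, ((j : ℕ) : ZMod n) * y = x := by
    intro y hy
    have h1 := hall y hy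
    have h2 : 0 < ((Finset.Icc 1 k).filter (fun j => ((j : ℕ) : ZMod n) * y = x)).card := by
      rw [h1]; exact hpos
    obtain ⟨j, hj⟩ := Finset.card_pos.mp h2
    rw [Finset.mem_filter] at hj
    exact ⟨j, hj.1, hj.2⟩
  have hsub : (Finset.univ.erase (0 : ZMod n)) ⊆
      (Finset.Icc 1 k).image (fun j => ((j : ℕ) : ZMod n)⁻¹ * x) := by
    intro y hy
    rw [Finset.mem_erase] at hy
    obtain ⟨j, hj, hjy⟩ := hex y hy.1
    rw [Finset.mem_image]
    refine ⟨j, hj, ?_⟩
    rw [← hjy, ← mul_assoc, ZMod.inv_mul_of_unit _ (hunit j hj), one_mul]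
  have hcard := Finset.card_le_card hsub
  have h7 := (Finset.card_image_le (s := Finset.Icc 1 k)
    (f := fun j : ℕ => ((j : ℕ) : ZMod n)⁻¹ * x))
  rw [Finset.card_erase_of_mem (Finset.mem_univ _), Finset.card_univ, ZMod.card] at hcard
  rw [Nat.card_Icc] at h7
  omega

/-! ### Exactness for divisors -/

theorem exact_dvd (n k : ℕ) (hE : Exact n k) : ∀ m : ℕ, 0 < m → m ∣ n → (n - 1) ∣ k * (m - 1) := by
  intro m
  induction m using Nat.recOnMul with
  | zero => intro h; exact absurd h (lt_irrefl 0)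
  | one => intro _ _; simp
  | prime p hp => intro _ h; exact hE p hp h
  | mul a b iha ihb =>
    intro h0 h
    have ha : 0 < a := Nat.pos_of_mul_pos_right (by simpa [mul_comm] using h0) |> fun h => by
      rcases Nat.eq_zero_or_pos a with h1 | h1
      · subst h1; simp at h0
      · exact h1
    have hb : 0 < b := by
      rcases Nat.eq_zero_or_pos b with h1 | h1
      · subst h1; simp at h0
      · exact h1
    have h1 := iha ha (dvd_trans (dvd_mul_right a b) h)
    have h2 := ihb hb (dvd_trans (dvd_mul_left b a) h)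
    obtain ⟨a', rfl⟩ : ∃ a', a = a' + 1 := ⟨a - 1, by omega⟩
    obtain ⟨b', rfl⟩ : ∃ b', b = b' + 1 := ⟨b - 1, by omega⟩
    have h3 : k * ((a' + 1) * (b' + 1) - 1) = k * (a' + 1 - 1) * (b' + 1) + k * (b' + 1 - 1) := by
      have : (a' + 1) * (b' + 1) - 1 = a' * (b' + 1) + b' := by
        have : (a' + 1) * (b' + 1) = a' * (b' + 1) + b' + 1 := by ring
        omega
      rw [this, Nat.add_sub_cancel, Nat.add_sub_cancel]; ring
    rw [h3]
    exact dvd_add (dvd_mul_of_dvd_left h1 _) h2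

/-! ### Odd `n`: the main alternative -/

theorem d_zero (hep : G_EP) (ha0 : G_A0) (hr3 : G_R3) (hjp : G_JP) (hjc : G_JC) (hth : G_TH)
    (hbs : ∀ p M k : ℕ, p.Prime → 0 < M → Bs (p * M) k p p = D p M k)
    (p M k g : ℕ) (hp : p.Prime) (hp3 : 3 ≤ p) (hodd : Odd M)
    (hmin : ∀ q : ℕ, q.Prime → q ∣ M → p ≤ q) (hM2 : 2 ≤ M) (hpk : p ≤ k)
    (hk : 2 * k + 1 ≤ p * M) (hg : g ∣ p * M) (hav : AV (p * M) k g) : D p M k = 0 := by
  have hp0 : 0 < p := hp.pos
  have hM0 : 0 < M := by omega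
  have hn2 : 2 ≤ p * M := by nlinarith
  have hkn : k < p * M := by omega
  by_cases hcase : M ≤ k ∨ rg g (p * M) = 0
  swap
  · push Not at hcase
    exact absurd hav (hep p M k g hp hp3 hM2 hodd hmin hpk hcase.1 hg hcase.2)
  by_cases hMp : M.Prime
  · exact hjp p M k g hp hMp hp3 (hmin M hMp dvd_rfl) hpk hk hg hcase hav
  -- `M` composite
  have hpp : p * p ≤ M := by
    have h1 : M.minFac ^ 2 ≤ M := Nat.minFac_sq_le_self hM0 hMp
    have h2 : p ≤ M.minFac := hmin _ (Nat.minFac_prime (by omega)) (Nat.minFac_dvd M)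
    nlinarith
  by_cases hF : 5 ≤ k / p
  · exact hjc p M k g hp hp3 hodd hmin hpp hF hk hg hav
  have hk5 : k < 5 * p := by
    have : k / p < 5 := by omega
    rw [Nat.div_lt_iff_lt_mul hp0] at this
    exact this
  rcases hcase with hMk | hrn
  · -- `M ≤ k`
    have hp5 : p < 5 := by
      by_contra hcon
      have : 5 * p ≤ p * p := Nat.mul_le_mul_right _ (by omega)
      omega
    have hp' : p = 3 := by
      interval_cases p
      · rfl
      · exact absurd hp (by norm_num)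
    subst hp'
    have hM9 : M = 9 := by
      have h1 : M < 15 := by omega
      have h2 : 9 ≤ M := by omega
      interval_cases M
      · rfl
      · exact absurd hodd (by decide)
      · exact absurd (by norm_num) hMp
      · exact absurd hodd (by decide)
      · exact absurd (by norm_num) hMp
      · exact absurd hodd (by decide)
    subst hM9
    exact hth 3 k g (by norm_num) (by omega) (by omega) (by omega) (by simpa using hg)
      (by simpa using hav)
  · -- `rg g n = 0`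
    obtain ⟨s0, hs0n, hs0p, hs0r, hs0m, _⟩ := hr3 (p * M) g (by omega) hg
    have hps0 : p ∣ s0 := hs0p p hp (dvd_mul_right _ _)
    have hs0pos : 0 < s0 := Nat.pos_of_dvd_of_pos hs0n (by omega)
    have hs01 : 1 < s0 := lt_of_lt_of_le hp.one_lt (Nat.le_of_dvd hs0pos hps0)
    obtain ⟨hB, hle⟩ := ha0 (p * M) k g s0 hn2 hkn hg hs0n hs01 hs0r hs0m hrn (by omega) hav
    obtain ⟨t, rfl⟩ := hps0
    have ht5 : t < 5 := by
      by_contra hcon
      have : p * 5 ≤ p * t := Nat.mul_le_mul_left _ (by omega)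
      omega
    have htM : t ∣ M := Nat.dvd_of_mul_dvd_mul_left hp0 hs0n
    have htodd : Odd t := Odd.of_dvd_nat hodd htM
    have ht0 : 0 < t := Nat.pos_of_dvd_of_pos htM hM0
    have ht13 : t = 1 ∨ t = 3 := by
      interval_cases t
      · left; rfl
      · exact absurd htodd (by decide)
      · right; rfl
      · exact absurd htodd (by decide)
    rcases ht13 with rfl | rfl
    · rw [mul_one] at hB
      rw [← hbs p M k hp hM0]
      exact hB
    · have hp' : p = 3 := by
        have := hmin 3 (by norm_num) htM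
        omega
      subst hp'
      -- all primes of `n` divide `9`
      have hall : ∀ q : ℕ, q.Prime → q ∣ 3 * M → q = 3 := by
        intro q hq hqn
        have h1 := hs0p q hq hqn
        have h2 : q ∣ 3 ^ 2 := by simpa using h1
        exact (Nat.prime_dvd_prime_iff_eq hq (by norm_num)).mp (hq.dvd_of_dvd_pow h2)
      obtain ⟨m, hm⟩ : ∃ m, 3 * M = 3 ^ m :=
        ⟨_, Nat.eq_prime_pow_of_unique_prime_dvd (by omega) (fun {d} hd hdn => hall d hd hdn)⟩
      have hm3 : 3 ≤ m := by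
        by_contra hcon
        have h1 : 3 ^ m ≤ 3 ^ 2 := Nat.pow_le_pow_right (by norm_num) (by omega)
        have h2 : (3 : ℕ) ^ 2 = 9 := by norm_num
        omega
      have hMm : M = 3 ^ (m - 1) := by
        obtain ⟨m', rfl⟩ : ∃ m', m = m' + 1 := ⟨m - 1, by omega⟩
        rw [pow_succ] at hm
        rw [Nat.add_sub_cancel]
        omega
      rw [hMm]
      exact hth m k g hm3 (by omega) (by omega) (by omega) (by rw [← hm]; exact hg)
        (by rw [← hm]; exact hav)

/-! ### The exact case: `x = 0` -/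

theorem exact_x (hcx1 : G_CX1) (hcx2 : G_CX2) (n : ℕ) [NeZero n] (k : ℕ) (x : ZMod n)
    (hodd : Odd n) (hk : 1 ≤ k) (hkn : 2 * k + 1 ≤ n) (hE : Exact n k) (hd : Des n k x) :
    x = 0 := by
  by_contra hx
  have hn0 : 0 < n := Nat.pos_of_ne_zero (NeZero.ne n)
  -- choice of the prime
  obtain ⟨q, hq, hqn, hqx⟩ : ∃ q : ℕ, q.Prime ∧ q ∣ n ∧ ¬ q ^ n.factorization q ∣ x.val := by
    by_contra hcon
    push Not at hcon
    apply hx
    have h1 : n ∣ x.val := by
      rw [Nat.dvd_iff_prime_pow_dvd_dvd]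
      intro p j hp hpj
      rcases Nat.eq_zero_or_pos j with rfl | hj
      · simp
      · have h2 : p ∣ n := dvd_trans (dvd_pow_self p (by omega)) hpj
        have h3 : j ≤ n.factorization p := (hp.pow_dvd_iff_le_factorization hn0.ne').mp hpj
        exact dvd_trans (pow_dvd_pow p h3) (hcon p hp h2)
    have h2 : x.val = 0 := Nat.eq_zero_of_dvd_of_lt h1 (ZMod.val_lt x)
    exact (ZMod.val_eq_zero x).mp h2
  obtain ⟨v, hv⟩ : ∃ v, v = n.factorization q := ⟨_, rfl⟩
  obtain ⟨N, hN⟩ : ∃ N, N = n / q ^ v := ⟨_, rfl⟩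
  rw [← hv] at hqx
  have hv1 : 1 ≤ v := by
    rw [hv]
    exact (hq.dvd_iff_one_le_factorization hn0.ne').mp hqn
  have hnN : n = q ^ v * N := by
    rw [hN, hv]
    exact (Nat.ordProj_mul_ordCompl_eq_self n q).symm
  have hqN : ¬ q ∣ N := by
    rw [hN, hv]
    exact Nat.not_dvd_ordCompl hq hn0.ne'
  have hN0 : 0 < N := by
    rcases Nat.eq_zero_or_pos N with h | h
    · rw [h, mul_zero] at hnN; omega
    · exact h
  have hs0 : 0 < q ^ v := pow_pos hq.pos v
  have hNn : N ∣ n := ⟨q ^ v, by rw [hnN]; ring⟩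
  have hsn : q ^ v ∣ n := ⟨N, hnN⟩
  -- the value of `k / q ^ v`
  obtain ⟨h, hh⟩ := exact_dvd n k hE N hN0 hNn
  obtain ⟨r, hr⟩ := exact_dvd n k hE (q ^ v) hs0 hsn
  have hn1 : 0 < n - 1 := by omega
  have hkr : k = q ^ v * h + r := by
    have h1 : (n - 1) * k = (n - 1) * (q ^ v * h + r) := by
      have e1 : (n - 1) * (q ^ v * h + r) = q ^ v * ((n - 1) * h) + (n - 1) * r := by ring
      rw [e1, ← hh, ← hr]
      obtain ⟨N', hN'⟩ : ∃ N', N = N' + 1 := ⟨N - 1, by omega⟩
      obtain ⟨s', hs'⟩ : ∃ s', q ^ v = s' + 1 := ⟨q ^ v - 1, by omega⟩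
      rw [hnN, hN', hs']
      have e2 : (s' + 1) * (N' + 1) - 1 = s' * N' + s' + N' := by
        have : (s' + 1) * (N' + 1) = s' * N' + s' + N' + 1 := by ring
        omega
      rw [e2, Nat.add_sub_cancel, Nat.add_sub_cancel]
      ring
    exact Nat.eq_of_mul_eq_mul_left hn1 h1
  have hrlt : r < q ^ v := by
    by_contra hcon
    have h1 : (n - 1) * q ^ v ≤ (n - 1) * r := Nat.mul_le_mul_left _ (by omega)
    rw [← hr] at h1
    have h2 : k * (q ^ v - 1) ≤ (n - 1) * (q ^ v - 1) := Nat.mul_le_mul_right _ (by omega)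
    have h3 : (n - 1) * (q ^ v - 1) < (n - 1) * q ^ v := Nat.mul_lt_mul_of_pos_left (by omega) hn1
    omega
  have hkdiv : k / q ^ v = h := by
    rw [hkr, Nat.mul_add_div hs0, Nat.div_eq_of_lt hrlt, add_zero]
  have h2h : 2 * h + 1 ≤ N := by
    by_contra hcon
    have h1 : N ≤ 2 * h := by omega
    have h2 : (n - 1) * (2 * h) = 2 * (k * (N - 1)) := by rw [hh]; ring
    have h3 : (n - 1) * N ≤ (n - 1) * (2 * h) := Nat.mul_le_mul_left _ h1
    have h4 : 2 * (k * (N - 1)) ≤ (n - 1) * (N - 1) := by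
      rw [← mul_assoc]; exact Nat.mul_le_mul_right _ (by omega)
    have h5 : (n - 1) * (N - 1) < (n - 1) * N := Nat.mul_lt_mul_of_pos_left (by omega) hn1
    omega
  have hcop : Nat.Coprime (q ^ v) N := Nat.Coprime.pow_left v ((Nat.Prime.coprime_iff_not_dvd hq).mpr hqN)
  by_cases hexc : h = 1 ∧ N ∣ x.val
  · -- the exceptional case
    obtain ⟨h1, hNx⟩ := hexc
    have hkN : k * (N - 1) = n - 1 := by rw [hh, h1, mul_one]
    have hNp : N.Prime := by
      have hN2 : 2 ≤ N := by omega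
      have hl := Nat.minFac_prime (show N ≠ 1 by omega)
      have hlN := Nat.minFac_dvd N
      obtain ⟨c, hc⟩ := hE _ hl (dvd_trans hlN hNn)
      have h2 : 2 ≤ N.minFac := hl.two_le
      have hc0 : 0 < c := by
        rcases Nat.eq_zero_or_pos c with hc' | hc'
        · rw [hc', mul_zero] at hc
          have : 0 < k * (N.minFac - 1) := Nat.mul_pos (by omega) (by omega)
          omega
        · exact hc'
      have h3 : (n - 1) * 1 ≤ (n - 1) * c := Nat.mul_le_mul_left _ hc0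
      rw [← hc, mul_one, ← hkN] at h3
      have h4 : N - 1 ≤ N.minFac - 1 := Nat.le_of_mul_le_mul_left h3 (by omega)
      have h5 : N.minFac ≤ N := Nat.minFac_le hN0
      have h6 : N.minFac = N := by omega
      rw [← h6]; exact hl
    have hNq : N ≠ q := by
      rintro rfl
      exact hqN dvd_rfl
    exact hcx2 q v N hq hv1 hNp hNq n hnN hodd k x hk hkN hE hqx hNx hd
  · refine hcx1 q v N hq hv1 hqN hN0 n hnN hodd k x hk hkn hE hqx ?_ hd
    rw [hkdiv]
    -- the target residue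
    have hunit : IsUnit ((q ^ v : ℕ) : ZMod N) := (ZMod.isUnit_iff_coprime _ _).mpr hcop
    obtain ⟨u, hu⟩ := hunit
    set ρ : ZMod N := ((u⁻¹ : (ZMod N)ˣ) : ZMod N) * ((x.val : ℕ) : ZMod N) with hρ
    have hfin : ∀ L : Finset ℕ, ((∑ i ∈ L, i : ℕ) : ZMod N) = ρ →
        ((q ^ v * ∑ i ∈ L, i : ℕ) : ZMod N) = ((x.val : ℕ) : ZMod N) := by
      intro L hL
      rw [Nat.cast_mul, hL, hρ, ← hu, ← mul_assoc, Units.mul_inv, one_mul]
    obtain ⟨m, hm⟩ : ∃ m, N = m + 1 := ⟨N - 1, by omega⟩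
    rcases Nat.eq_zero_or_pos h with h0 | h0
    · -- `N = 1`
      have hN1 : N = 1 := by
        by_contra hcon
        have h1 : 0 < k * (N - 1) := Nat.mul_pos (by omega) (by omega)
        rw [hh, h0, mul_zero] at h1
        exact absurd h1 (lt_irrefl 0)
      refine ⟨∅, ?_, ?_⟩
      · rw [h0]; simp
      · have : Subsingleton (ZMod N) := by rw [hN1]; infer_instance
        exact Subsingleton.elim _ _
    rcases Nat.lt_or_ge 1 h with h2 | h2
    · obtain ⟨e, he⟩ : ∃ e, m = h + e + h := ⟨m - 2 * h, by omega⟩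
      obtain ⟨h', rfl⟩ : ∃ h', h = h' + 2 := ⟨h - 2, by omega⟩
      have h3 : N ≤ (h' + 2) * (m - (h' + 2)) + 1 := by
        have e1 : m - (h' + 2) = h' + 2 + e := by omega
        rw [e1, hm, he]
        nlinarith
      obtain ⟨L, hL, hLs⟩ := Pool.Agent.Helper51.SS.exists_sum_mod m (h' + 2) N hN0 (by omega) h3 ρ
      rw [← hm] at hL
      exact ⟨L, hL, hfin L hLs⟩
    · have h1 : h = 1 := by omega
      subst h1
      have hNx : ¬ N ∣ x.val := fun h => hexc ⟨rfl, h⟩
      have : NeZero N := ⟨hN0.ne'⟩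
      have hρ0 : ρ ≠ 0 := by
        intro h0
        apply hNx
        have h3 := (u⁻¹ : (ZMod N)ˣ).isUnit.mul_right_eq_zero.mp h0
        exact (ZMod.natCast_eq_zero_iff _ _).mp h3
      refine ⟨{ρ.val}, ?_, ?_⟩
      · rw [Finset.mem_powersetCard]
        refine ⟨?_, by simp⟩
        rw [Finset.singleton_subset_iff, Finset.mem_Ico]
        refine ⟨?_, ZMod.val_lt ρ⟩
        have : ρ.val ≠ 0 := fun h => hρ0 ((ZMod.val_eq_zero ρ).mp h)
        omega
      · exact hfin _ (by simp)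

/-! ### Necessity -/

theorem bs_eq_D (p M k : ℕ) (hp : p.Prime) (_hM : 0 < M) : Bs (p * M) k p p = D p M k := by
  unfold Bs D
  rw [Finset.sum_filter]
  refine Finset.sum_congr rfl fun j _ => ?_
  have h1 : p * M / p = M := Nat.mul_div_cancel_left _ hp.pos
  rw [h1]
  by_cases h : p ∣ j
  · have h2 : Nat.gcd p j = p := Nat.gcd_eq_left h
    rw [h2, Nat.div_self hp.pos, if_neg (by have := hp.one_lt; omega), if_neg (by simpa using h)]
  · have h2 : Nat.gcd p j = 1 := (Nat.Prime.coprime_iff_not_dvd hp).mpr h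
    rw [h2, Nat.div_one, if_pos rfl, if_pos h]

theorem sigma_odd (n : ℕ) [NeZero n] (hodd : Odd n) : (∑ t : ZMod n, t) = 0 := by
  have h : (∑ t : ZMod n, t) = ∑ t : ZMod n, (-t) :=
    (Equiv.sum_comp (Equiv.neg (ZMod n)) (fun t => t)).symm
  rw [Finset.sum_neg_distrib] at h
  have h2 : (2 : ZMod n) * (∑ t : ZMod n, t) = 0 := by
    rw [two_mul]
    nth_rewrite 2 [h]
    exact add_neg_cancel _
  have h3 : IsUnit ((2 : ℕ) : ZMod n) := by
    rw [ZMod.isUnit_iff_coprime]
    exact (Nat.coprime_two_left.mpr hodd)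
  have h4 : IsUnit (2 : ZMod n) := by simpa using h3
  exact h4.mul_right_eq_zero.mp h2

section Nec

variable (hlow : G_LOW) (hk2 : G_K2) (havg : G_AVG) (hevn : G_EVN) (hep : G_EP) (ha0 : G_A0)
  (hr3 : G_R3) (hjp : G_JP) (hjc : G_JC) (hth : G_TH) (hexh : G_EXH) (hprop : G_PROP)
  (hcx1 : G_CX1) (hcx2 : G_CX2) (hcpl : G_CPL)

include hlow hk2 havg hevn hep ha0 hr3 hjp hjc hth hexh hprop hcx1 hcx2

theorem nec_half (n : ℕ) [NeZero n] (k : ℕ) (x : ZMod n) (hk : 2 ≤ k) (hkn : 2 * k + 1 ≤ n)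
    (hd : Des n k x) :
    Odd n ∧ x = 0 ∧ ((∀ q : ℕ, q.Prime → q ∣ n → k < q) ∨ Exact n k) := by
  have hn2 : 2 ≤ n := by omega
  obtain ⟨g, hg, hav⟩ : ∃ g, g ∣ n ∧ AV n k g :=
    ⟨Nat.gcd x.val n, Nat.gcd_dvd_right _ _, havg n k x hn2 (by omega) hd⟩
  rcases Nat.even_or_odd n with he | hodd
  · exfalso
    rcases Nat.lt_or_ge k 3 with h3 | h3
    · have hk2' : k = 2 := by omega
      subst hk2'
      exact hk2 n x he (by omega) hd
    · obtain ⟨M, hM⟩ := he
      have hM' : n = 2 * M := by omega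
      rw [hM'] at hav hg
      exact hevn M k g (by omega) h3 (by omega) hg hav
  · refine ⟨hodd, ?_⟩
    obtain ⟨p, hpdef⟩ : ∃ p, p = n.minFac := ⟨_, rfl⟩
    have hp : p.Prime := by rw [hpdef]; exact Nat.minFac_prime (by omega)
    have hpn : p ∣ n := by rw [hpdef]; exact Nat.minFac_dvd n
    have hmin : ∀ q : ℕ, q.Prime → q ∣ n → p ≤ q := fun q hq hqn => by
      rw [hpdef]; exact Nat.minFac_le_of_dvd hq.two_le hqn
    have hp3 : 3 ≤ p := by
      have h1 := hp.two_le
      have h2 : Odd p := Odd.of_dvd_nat hodd hpn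
      rcases Nat.lt_or_ge p 3 with h | h
      · have : p = 2 := by omega
        rw [this] at h2
        exact absurd h2 (by decide)
      · exact h
    rcases Nat.lt_or_ge k p with hkp | hkp
    · have hall : ∀ q : ℕ, q.Prime → q ∣ n → k < q := fun q hq hqn =>
        lt_of_lt_of_le hkp (hmin q hq hqn)
      exact ⟨low_ne hlow n k x (by omega) (by omega) hall hd, Or.inl hall⟩
    · obtain ⟨M, hM⟩ := hpn
      have hM0 : 0 < M := by
        rcases Nat.eq_zero_or_pos M with h | h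
        · rw [h, mul_zero] at hM; omega
        · exact h
      have hM2 : 2 ≤ M := by
        by_contra hcon
        have : M = 1 := by omega
        rw [this, mul_one] at hM
        omega
      have hMn : M ∣ n := ⟨p, by rw [hM]; ring⟩
      have hModd : Odd M := Odd.of_dvd_nat hodd hMn
      have hminM : ∀ q : ℕ, q.Prime → q ∣ M → p ≤ q := fun q hq hqM =>
        hmin q hq (dvd_trans hqM hMn)
      have hav' : AV (p * M) k g := by rw [← hM]; exact hav
      have hg' : g ∣ p * M := by rw [← hM]; exact hg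
      have hk' : 2 * k + 1 ≤ p * M := by rw [← hM]; exact hkn
      have hD := d_zero hep ha0 hr3 hjp hjc hth bs_eq_D p M k g hp hp3 hModd hminM hM2 hkp
        hk' hg' hav'
      obtain ⟨h, h1, h2, h3⟩ := hexh p M k hp.two_le hM2 (by omega) (by omega) hD
      rw [← hM] at h3
      have hE : Exact n k := hprop n p k h g hn2 hp ⟨M, hM⟩ hmin h1 h2 h3 hg hav
      exact ⟨exact_x hcx1 hcx2 n k x hodd (by omega) hkn hE hd, Or.inr hE⟩

include hcpl

theorem nec_all (n : ℕ) [NeZero n] (k : ℕ) (x : ZMod n) (hk : 2 ≤ k) (hkn : k + 3 ≤ n)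
    (hd : Des n k x) :
    x = 0 ∧ ((∀ q : ℕ, q.Prime → q ∣ n → k < q) ∨ (∀ q : ℕ, q.Prime → q ∣ n → n - 1 - k < q) ∨
      Exact n k) := by
  rcases Nat.lt_or_ge n (2 * k + 1) with h | h
  · have hd' := hcpl n k x (by omega) hd
    obtain ⟨hodd, hx, hor⟩ := nec_half hlow hk2 havg hevn hep ha0 hr3 hjp hjc hth hexh hprop
      hcx1 hcx2 n (n - 1 - k) ((∑ t : ZMod n, t) - x) (by omega) (by omega) hd'
    rw [sigma_odd n hodd, zero_sub, neg_eq_zero] at hx
    refine ⟨hx, ?_⟩
    rcases hor with h1 | h1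
    · exact Or.inr (Or.inl h1)
    · refine Or.inr (Or.inr fun q hq hqn => ?_)
      have h2 := h1 q hq hqn
      have h3 : (n - 1) ∣ (n - 1) * (q - 1) := dvd_mul_right _ _
      have h4 : (n - 1) * (q - 1) - (n - 1 - k) * (q - 1) = k * (q - 1) := by
        rw [← Nat.sub_mul]
        congr 1
        omega
      rw [← h4]
      exact Nat.dvd_sub h3 h2
  · obtain ⟨_, hx, hor⟩ := nec_half hlow hk2 havg hevn hep ha0 hr3 hjp hjc hth hexh hprop
      hcx1 hcx2 n k x hk h hd
    refine ⟨hx, ?_⟩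
    rcases hor with h1 | h1
    · exact Or.inl h1
    · exact Or.inr (Or.inr h1)

end Nec

/-! ### Sufficiency -/

theorem suf_all (hlow : G_LOW) (hsuf : G_SUF2) (hcpl : G_CPL) (n : ℕ) [NeZero n] (k : ℕ)
    (hk : 2 ≤ k) (hkn : k + 3 ≤ n)
    (h : (∀ q : ℕ, q.Prime → q ∣ n → k < q) ∨ (∀ q : ℕ, q.Prime → q ∣ n → n - 1 - k < q) ∨
      Exact n k) : Des n k 0 := by
  rcases h with h | h | h
  · exact low_zero hlow n k (by omega) (by omega) h
  · have hodd : Odd n := by
      rcases Nat.even_or_odd n with he | ho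
      · have := h 2 Nat.prime_two he.two_dvd
        omega
      · exact ho
    have h1 := low_zero hlow n (n - 1 - k) (by omega) (by omega) h
    have h2 := hcpl n (n - 1 - k) 0 (by omega) h1
    rw [sigma_odd n hodd, sub_zero] at h2
    have h3 : n - 1 - (n - 1 - k) = k := by omega
    rwa [h3] at h2
  · exact hsuf n k (by omega) (by omega) (by omega) h

/-! ### The classification -/

theorem classification (htr : G_TR) (hedge : G_EDGE) (hne : G_NE) (hlow : G_LOW) (hk2 : G_K2)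
    (havg : G_AVG) (hsuf : G_SUF2) (hevn : G_EVN) (hep : G_EP) (ha0 : G_A0)
    (hr3 : G_R3) (hjp : G_JP) (hjc : G_JC) (hth : G_TH) (hexh : G_EXH) (hprop : G_PROP)
    (hcx1 : G_CX1) (hcx2 : G_CX2) (hcpl : G_CPL)
    (n : ℕ) [NeZero n] (hn : 2 ≤ n) (k : ℕ) (hk1 : 1 ≤ k) (hkn1 : k ≤ n - 1) (x : ZMod n) :
    Pool.Agent.Helper51.SS.IsOneDesign (blocksStar n k x) ↔
      (k = n - 1 ∧ x = ∑ t : ZMod n, t) ∨
      (x = 0 ∧ 2 ≤ k ∧ k + 3 ≤ n ∧
        ((∀ q : ℕ, q.Prime → q ∣ n → k < q) ∨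
         (∀ q : ℕ, q.Prime → q ∣ n → n - 1 - k < q) ∨
         (∀ q : ℕ, q.Prime → q ∣ n → (n - 1) ∣ k * (q - 1)))) := by
  rw [htr n k x]
  obtain ⟨he1, he2, he3⟩ := hedge n x
  rcases Nat.lt_or_ge k (n - 1) with hlt | hge
  · -- `k < n - 1`
    have hn3 : 3 ≤ n := by omega
    rcases Nat.lt_or_ge k 2 with h2 | h2
    · have : k = 1 := by omega
      subst this
      constructor
      · intro h; exact absurd h (he1 hn3)
      · rintro (⟨h, _⟩ | ⟨_, h, _⟩)
        · omega
        · omega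
    rcases Nat.lt_or_ge n (k + 3) with h3 | h3
    · have : k = n - 2 := by omega
      subst this
      constructor
      · intro h; exact absurd h (he2 hn3)
      · rintro (⟨h, _⟩ | ⟨_, _, h, _⟩)
        · omega
        · omega
    constructor
    · rintro ⟨_, hd⟩
      obtain ⟨hx, hor⟩ := nec_all hlow hk2 havg hevn hep ha0 hr3 hjp hjc hth hexh hprop
        hcx1 hcx2 hcpl n k x h2 h3 hd
      exact Or.inr ⟨hx, h2, h3, hor⟩
    · rintro (⟨h, _⟩ | ⟨rfl, _, _, hor⟩)
      · omega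
      · exact ⟨hne n k 0 h2 h3, suf_all hlow hsuf hcpl n k h2 h3 hor⟩
  · have : k = n - 1 := by omega
    subst this
    rw [he3]
    constructor
    · intro h; exact Or.inl ⟨rfl, h⟩
    · rintro (⟨_, h⟩ | ⟨_, _, h, _⟩)
      · exact h
      · omega

end Pool.Agent.Helper45.SD
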