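import Pool.Agent.Helper45.SD.Goals
import Pool.Agent.Helper51.SS.Nec

set_option autoImplicit false

/-! # Comparison of the degrees of two points -/

open Finset

namespace Pool.Agent.Helper45.SD

open Pool.Agent.Helper51.SS (cnt ssum)

theorem card_bl_eq (n : ℕ) [NeZero n] (t : ℕ) (z : ZMod n) :
    (bl n t z).card = cnt ((Ico 1 n).powersetCard t) ssum n z := by
  unfold bl cnt
  have hinj : Set.InjOn (fun i : ℕ => (i : ZMod n)) ((Ico 1 n : Finset ℕ) : Set ℕ) := by
    intro a ha c hc hac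
    have h1 := Finset.mem_Ico.mp (Finset.mem_coe.mp ha)
    have h2 := Finset.mem_Ico.mp (Finset.mem_coe.mp hc)
    have h3 := (ZMod.natCast_eq_natCast_iff a c n).mp hac
    exact Nat.ModEq.eq_of_lt_of_lt h3 h1.2 h2.2
  have hval : Function.Injective (fun a : ZMod n => a.val) := ZMod.val_injective n
  refine Finset.card_nbij' (fun T => T.image (fun a => a.val))
    (fun L => L.image (fun i : ℕ => (i : ZMod n))) ?_ ?_ ?_ ?_
  · intro T hT
    simp only [Finset.coe_filter, Finset.mem_powersetCard, Set.mem_ofPred_eq] at hT ⊢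
    obtain ⟨⟨hT1, hc⟩, hs⟩ := hT
    refine ⟨⟨?_, ?_⟩, ?_⟩
    · intro i hi
      rw [Finset.mem_image] at hi
      obtain ⟨a, ha, rfl⟩ := hi
      have h0 := (Finset.mem_erase.mp (hT1 ha)).1
      rw [Finset.mem_Ico]
      refine ⟨?_, ZMod.val_lt a⟩
      have : a.val ≠ 0 := fun h => h0 ((ZMod.val_eq_zero a).mp h)
      omega
    · rw [Finset.card_image_of_injective _ hval, hc]
    · unfold ssum
      rw [Finset.sum_image (fun a _ b _ h => hval h), ← hs]
      push_cast
      simp
  · intro L hL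
    simp only [Finset.coe_filter, Finset.mem_powersetCard, Set.mem_ofPred_eq] at hL ⊢
    obtain ⟨⟨hL1, hc⟩, hs⟩ := hL
    have hinjL : Set.InjOn (fun i : ℕ => (i : ZMod n)) (L : Set ℕ) :=
      hinj.mono (Finset.coe_subset.mpr hL1)
    refine ⟨⟨?_, ?_⟩, ?_⟩
    · intro a ha
      rw [Finset.mem_image] at ha
      obtain ⟨i, hi, rfl⟩ := ha
      have h1 := Finset.mem_Ico.mp (hL1 hi)
      rw [Finset.mem_erase]
      refine ⟨?_, Finset.mem_univ _⟩
      intro h
      rw [ZMod.natCast_eq_zero_iff] at h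
      have := Nat.le_of_dvd (by omega) h
      omega
    · rw [Finset.card_image_of_injOn hinjL, hc]
    · rw [Finset.sum_image hinjL, ← hs]
      unfold ssum
      push_cast
      rfl
  · intro T _
    simp only [Finset.image_image]
    conv_rhs => rw [← Finset.image_id (s := T)]
    refine Finset.image_congr fun a _ => ?_
    simp
  · intro L hL
    simp only [Finset.coe_filter, Finset.mem_powersetCard, Set.mem_ofPred_eq] at hL
    simp only [Finset.image_image]
    conv_rhs => rw [← Finset.image_id (s := L)]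
    refine Finset.image_congr fun i hi => ?_
    have h1 := Finset.mem_Ico.mp (hL.1.1 hi)
    simp only [Function.comp_apply, id_eq]
    exact ZMod.val_cast_of_lt h1.2

theorem cnt_shift {ι : Type*} (F : Finset ι) (f : ι → ℕ) (m d : ℕ) (w : ZMod m) :
    cnt F (fun T => f T + d) m w = cnt F f m (w - (d : ZMod m)) := by
  unfold cnt
  congr 1
  refine Finset.filter_congr fun T _ => ?_
  push_cast
  exact eq_sub_iff_add_eq.symm

/-- The periodic function. -/
def Hf (n s N t : ℕ) [NeZero n] (w : ZMod n) : ℤ :=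
  (-1) ^ t * ((bl n t w).card : ℤ) - (-1) ^ (t / s) * (Bp n s N (t / s) w : ℤ)

theorem Hf_step (q v N n : ℕ) [NeZero n] (hq : q.Prime) (hv : 1 ≤ v) (hN : 0 < N)
    (hn : n = q ^ v * N) (t : ℕ) (w : ZMod n) :
    Hf n (q ^ v) N t w = Hf n (q ^ v) N t (w - ((q ^ (v - 1) * N : ℕ) : ZMod n)) := by
  have h := Pool.Agent.Helper51.SS.count_main' q (v - 1) N 1 hq hN one_pos t (q ^ v) n n N
    (by rw [Nat.sub_add_cancel hv]) hn (by ring) (by ring) w
  rw [cnt_shift, cnt_shift, ← card_bl_eq, ← card_bl_eq] at h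
  have hB : ∀ z : ZMod n, Bp n (q ^ v) N (t / q ^ v) z =
      cnt ((Ico 1 N).powersetCard (t / q ^ v)) (fun L => q ^ v * ssum L) n z := fun z => rfl
  rw [← hB, ← hB] at h
  unfold Hf
  linarith

theorem Hf_per (q v N n : ℕ) [NeZero n] (hq : q.Prime) (hv : 1 ≤ v) (hN : 0 < N)
    (hn : n = q ^ v * N) (t : ℕ) (w i : ZMod n) :
    Hf n (q ^ v) N t (w - i * ((q ^ (v - 1) * N : ℕ) : ZMod n)) = Hf n (q ^ v) N t w := by
  have key : ∀ j : ℕ, Hf n (q ^ v) N t (w - (j : ZMod n) * ((q ^ (v - 1) * N : ℕ) : ZMod n)) =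
      Hf n (q ^ v) N t w := by
    intro j
    induction j with
    | zero => simp
    | succ j ih =>
      rw [← ih, Hf_step q v N n hq hv hN hn t (w - (j : ZMod n) * _)]
      congr 1
      push_cast
      ring
  have h := key i.val
  rwa [ZMod.natCast_val, ZMod.cast_id', id_eq] at h

theorem cmp (hdeg : G_DEG) : G_CMP := by
  intro q v N hq hv _ hN n _ hn k x y y' hy hy' hi
  obtain ⟨i, hi⟩ := hi
  rw [hdeg n k x y hy, hdeg n k x y' hy', ← Finset.sum_sub_distrib, Finset.mul_sum]
  refine Finset.sum_congr rfl fun j hj => ?_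
  rw [Finset.mem_Icc] at hj
  have h1 := Hf_per q v N n hq hv hN hn (k - j) (x - j * y) (j * i)
  have h2 : x - (j : ZMod n) * y - (j : ZMod n) * i * ((q ^ (v - 1) * N : ℕ) : ZMod n) =
      x - j * y' := by
    rw [hi]; ring
  rw [h2] at h1
  unfold Hf at h1
  have h3 : ((-1 : ℤ)) ^ (k - 1) = (-1) ^ (j - 1) * (-1) ^ (k - j) := by
    rw [← pow_add]; congr 1; omega
  have h4 : ((-1 : ℤ)) ^ (k - j) * (-1) ^ (k - j) = 1 := by
    rw [← pow_add, ← two_mul]; simp
  rw [h3]
  set a : ℤ := (-1) ^ (k - j) with ha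
  set b : ℤ := (-1) ^ (j - 1) with hb
  set e : ℤ := (-1) ^ ((k - j) / q ^ v) with he
  have h5 : a * (((bl n (k - j) (x - j * y)).card : ℤ) - ((bl n (k - j) (x - j * y')).card : ℤ)) =
      e * ((Bp n (q ^ v) N ((k - j) / q ^ v) (x - j * y) : ℤ) -
        (Bp n (q ^ v) N ((k - j) / q ^ v) (x - j * y') : ℤ)) := by linarith
  calc b * ((bl n (k - j) (x - j * y)).card : ℤ) - b * ((bl n (k - j) (x - j * y')).card : ℤ)
      = b * (a * a) * (((bl n (k - j) (x - j * y)).card : ℤ) -
          ((bl n (k - j) (x - j * y')).card : ℤ)) := by rw [h4]; ring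
    _ = b * a * (a * (((bl n (k - j) (x - j * y)).card : ℤ) -
          ((bl n (k - j) (x - j * y')).card : ℤ))) := by ring
    _ = _ := by rw [h5]

end Pool.Agent.Helper45.SD
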