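import Pool.Agent.Helper51.SS.Shift

set_option autoImplicit false

/-!
# Question Q2 of MP_9415b6_co: subset-sum designs on the nonzero elements of `ℤ/n`. Definitions.
-/

open Finset

namespace Pool.Agent.Helper45.SD

/-- The family `𝓑_k^{x,*}` of all `k`-element subsets of `ℤ/n ∖ {0}` with sum `x`. -/
def blocksStar (n : ℕ) [NeZero n] (k : ℕ) (x : ZMod n) : Finset (Finset {z : ZMod n // z ≠ 0}) :=
  (Finset.powersetCard k Finset.univ).filter (fun T => ∑ t ∈ T, (t : ZMod n) = x)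

/-- The same family, as a family of subsets of `ℤ/n`. -/
def bl (n : ℕ) [NeZero n] (k : ℕ) (x : ZMod n) : Finset (Finset (ZMod n)) :=
  ((Finset.univ.erase (0 : ZMod n)).powersetCard k).filter (fun T => ∑ t ∈ T, t = x)

/-- The number of members of the family that contain `y`. -/
def deg (n : ℕ) [NeZero n] (k : ℕ) (x y : ZMod n) : ℕ :=
  ((bl n k x).filter (fun T => y ∈ T)).card

/-- All nonzero points lie in the same number of blocks. -/
def Des (n : ℕ) [NeZero n] (k : ℕ) (x : ZMod n) : Prop :=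
  ∃ r : ℕ, ∀ y : ZMod n, y ≠ 0 → deg n k x y = r

/-- `k (q - 1) / (n - 1)` is an integer for all primes `q ∣ n`. -/
def Exact (n k : ℕ) : Prop := ∀ q : ℕ, q.Prime → q ∣ n → (n - 1) ∣ k * (q - 1)

/-- `(-1)^f * binomial(M - 1, f)`. -/
def ep (M f : ℕ) : ℤ := (-1) ^ f * ((M - 1).choose f : ℤ)

/-- Ramanujan sum `c_s(g)`. -/
def rg (g s : ℕ) : ℤ := ∑ d ∈ s.divisors, if d ∣ g then ArithmeticFunction.moebius (s / d) * (d : ℤ) else 0

/-- The sum of `ep (n / s) ⌊(k - j) / s⌋` over `1 ≤ j ≤ k` with `s / gcd(s, j) = u`. -/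
def Bs (n k s u : ℕ) : ℤ :=
  ∑ j ∈ Finset.Icc 1 k, if s / Nat.gcd s j = u then ep (n / s) ((k - j) / s) else 0

/-- The number of `1 ≤ j ≤ X` with `s / gcd(s, j) = u`. -/
def Nu (s u X : ℕ) : ℕ := ((Finset.Icc 1 X).filter (fun j => s / Nat.gcd s j = u)).card

/-- The number of `1 ≤ j ≤ X` coprime to `n`. -/
def Ph (n X : ℕ) : ℕ := ((Finset.Icc 1 X).filter (fun j => Nat.Coprime j n)).card

/-- The averaged equations. -/
def AV (n k g : ℕ) : Prop := ∀ u : ℕ, u ∣ n → 1 < u →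
  (Nat.totient n : ℤ) * ∑ s ∈ n.divisors, rg g s * Bs n k s u =
    (Nat.totient u : ℤ) * (rg g n * (Ph n k : ℤ))

/-- The sum of `ep M ⌊(X - i) / p⌋` over `1 ≤ i ≤ X`, `p ∤ i`. -/
def D (p M X : ℕ) : ℤ :=
  ∑ i ∈ (Finset.Icc 1 X).filter (fun i => ¬ p ∣ i), ep M ((X - i) / p)

/-- The standard additive character of `ℤ/n`. -/
noncomputable def psi (n : ℕ) [NeZero n] (a : ZMod n) : ℂ := ZMod.stdAddChar a

/-- Elementary symmetric functions of `psi (a z)`, `z ≠ 0`. -/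
noncomputable def Es (n : ℕ) [NeZero n] (t : ℕ) (a : ZMod n) : ℂ :=
  ∑ T ∈ (Finset.univ.erase (0 : ZMod n)).powersetCard t, psi n (a * ∑ z ∈ T, z)

/-- The dual function. -/
noncomputable def Gd (n : ℕ) [NeZero n] (k : ℕ) (x l : ZMod n) : ℂ :=
  ∑ a : ZMod n, psi n (-(a * x)) * ∑ j ∈ Finset.Icc 1 k,
    if a * (j : ZMod n) + l = 0 then (-1) ^ (j - 1) * Es n (k - j) a else 0

/-- `B'(t, z)`: the number of `t`-subsets `L` of `{1, …, N - 1}` with `s ΣL = z` in `ℤ/n`. -/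
def Bp (n s N t : ℕ) (z : ZMod n) : ℕ :=
  (((Finset.Ico 1 N).powersetCard t).filter
    (fun L => ((s * ∑ i ∈ L, i : ℕ) : ZMod n) = z)).card

end Pool.Agent.Helper45.SD
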