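import Pool.Agent.Helper45.SD.Goals

set_option autoImplicit false

/-! # The inequality for even `n` -/

open Finset

namespace Pool.Agent.Helper45.SD

/-- Vandermonde. -/
theorem vdm (a b c d : ℕ) : a.choose c * b.choose d ≤ (a + b).choose (c + d) := by
  rw [Nat.add_choose_eq]
  exact Finset.single_le_sum (f := fun ij : ℕ × ℕ => a.choose ij.1 * b.choose ij.2)
    (fun _ _ => Nat.zero_le _) (a := (c, d)) (by simp)

theorem choose_mono_half (n a : ℕ) : ∀ b, a ≤ b → b ≤ n / 2 → n.choose a ≤ n.choose b := by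
  intro b
  induction b with
  | zero => intro h _; have : a = 0 := by omega
            subst this; exact le_rfl
  | succ b ih =>
    intro h1 h2
    rcases Nat.lt_or_ge b a with h | h
    · have : a = b + 1 := by omega
      subst this; exact le_rfl
    · exact (ih h (by omega)).trans (Nat.choose_le_succ_of_lt_half_left (by omega))

/-- Unimodality. -/
theorem choose_ge (n a d : ℕ) (h1 : a ≤ d) (h2 : d + a ≤ n) : n.choose a ≤ n.choose d := by
  rcases Nat.lt_or_ge (n / 2) d with h | h
  · have h3 : n.choose d = n.choose (n - d) := (Nat.choose_symm (by omega)).symm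
    rw [h3]
    exact choose_mono_half n a (n - d) (by omega) (by omega)
  · exact choose_mono_half n a d h1 h

/-- Fast binomials. -/
def cf (n k : ℕ) : ℕ := n.descFactorial k / k.factorial

theorem cf_eq (n k : ℕ) : cf n k = n.choose k := (Nat.choose_eq_descFactorial_div_factorial n k).symm

theorem ei_small : ∀ M ∈ Finset.Icc 4 34, ∀ k ∈ Finset.Icc 3 (M - 1),
    (M, k) ∉ ({(4, 3), (6, 3), (6, 4), (6, 5), (8, 4), (12, 4)} : Finset (ℕ × ℕ)) →
    ∑ j ∈ (Finset.Icc 2 k).filter (fun j => j ∣ M ∧ j < M),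
      Nat.totient (2 * j) * cf (M / j - 2) ((k / j - 1) / 2) + (k + 1) / 2 <
    cf (M - 2) ((k - 1) / 2) := by
  decide +kernel

theorem filt_eq (M k : ℕ) (hM : 0 < M) :
    M.divisors.filter (fun j => 1 < j ∧ j < M ∧ j ≤ k) =
      (Finset.Icc 2 k).filter (fun j => j ∣ M ∧ j < M) := by
  ext j
  simp only [Finset.mem_filter, Nat.mem_divisors, Finset.mem_Icc]
  constructor
  · rintro ⟨⟨h1, _⟩, h2, h3, h4⟩
    exact ⟨⟨h2, h4⟩, h1, h3⟩
  · rintro ⟨⟨h2, h4⟩, h1, h3⟩
    exact ⟨⟨h1, hM.ne'⟩, h2, h3, h4⟩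

theorem tot_sum (M : ℕ) (hM : 0 < M) (S : Finset ℕ) (hS : ∀ j ∈ S, j ∣ M ∧ 1 < j) :
    ∑ j ∈ S, Nat.totient (2 * j) + 2 ≤ 2 * M := by
  have h1 : ∑ d ∈ (2 * M).divisors, Nat.totient d = 2 * M := Nat.sum_totient _
  have hinj : Set.InjOn (fun j : ℕ => 2 * j) (S : Set ℕ) := by
    intro a _ b _ hab
    simp only at hab
    omega
  have h2 : ∑ j ∈ S, Nat.totient (2 * j) = ∑ d ∈ S.image (fun j => 2 * j), Nat.totient d := by
    rw [Finset.sum_image hinj]
  have h3 : (S.image (fun j => 2 * j)) ∪ {1, 2} ⊆ (2 * M).divisors := by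
    intro d hd
    rw [Finset.mem_union] at hd
    rw [Nat.mem_divisors]
    refine ⟨?_, by omega⟩
    rcases hd with hd | hd
    · rw [Finset.mem_image] at hd
      obtain ⟨j, hj, rfl⟩ := hd
      exact Nat.mul_dvd_mul_left 2 (hS j hj).1
    · simp only [Finset.mem_insert, Finset.mem_singleton] at hd
      rcases hd with rfl | rfl
      · exact one_dvd _
      · exact dvd_mul_right _ _
  have h4 : Disjoint (S.image (fun j => 2 * j)) ({1, 2} : Finset ℕ) := by
    rw [Finset.disjoint_left]
    intro d hd hd'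
    rw [Finset.mem_image] at hd
    obtain ⟨j, hj, rfl⟩ := hd
    have := (hS j hj).2
    simp only [Finset.mem_insert, Finset.mem_singleton] at hd'
    omega
  have h5 := Finset.sum_le_sum_of_subset (f := Nat.totient) h3
  rw [Finset.sum_union h4, h1] at h5
  have h6 : ∑ d ∈ ({1, 2} : Finset ℕ), Nat.totient d = 2 := by decide
  rw [h6] at h5
  rw [h2]; exact h5

theorem ei : G_EI := by
  intro M k hM hk hkM hexc
  rw [filt_eq M k (by omega)]
  rcases Nat.lt_or_ge 34 M with hM34 | hM34
  swap
  · have h := ei_small M (Finset.mem_Icc.mpr ⟨hM, hM34⟩) k (Finset.mem_Icc.mpr ⟨hk, by omega⟩) hexc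
    simp only [cf_eq] at h
    exact h
  rcases Nat.lt_or_ge k 7 with hk7 | hk7
  · -- `k ≤ 6`
    have hle : ∑ j ∈ (Finset.Icc 2 k).filter (fun j => j ∣ M ∧ j < M),
        Nat.totient (2 * j) * (M / j - 2).choose ((k / j - 1) / 2) ≤
        ∑ j ∈ Finset.Icc 2 k, Nat.totient (2 * j) * (M / j - 2).choose ((k / j - 1) / 2) :=
      Finset.sum_le_sum_of_subset (Finset.filter_subset _ _)
    refine lt_of_le_of_lt (Nat.add_le_add_right hle _) ?_
    have t4 : Nat.totient 4 = 2 := by decide
    have t6 : Nat.totient 6 = 2 := by decide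
    have t8 : Nat.totient 8 = 4 := by decide
    have t10 : Nat.totient 10 = 4 := by decide
    have t12 : Nat.totient 12 = 4 := by decide
    have hc2 : (M - 2).choose 2 = (M - 2) * (M - 3) / 2 := by
      rw [Nat.choose_two_right]; congr 1
    have hbig : 2 * (M + 20) ≤ (M - 2) * (M - 3) := by
      obtain ⟨e, rfl⟩ : ∃ e, M = e + 35 := ⟨M - 35, by omega⟩
      have e1 : e + 35 - 2 = e + 33 := by omega
      have e2 : e + 35 - 3 = e + 32 := by omega
      rw [e1, e2]; nlinarith
    interval_cases k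
    · have : Finset.Icc 2 3 = ({2, 3} : Finset ℕ) := by decide
      rw [this]
      simp [t4, t6]
      omega
    · have : Finset.Icc 2 4 = ({2, 3, 4} : Finset ℕ) := by decide
      rw [this]
      simp [t4, t6, t8]
      omega
    · have : Finset.Icc 2 5 = ({2, 3, 4, 5} : Finset ℕ) := by decide
      rw [this]
      simp [t4, t6, t8, t10, hc2]
      omega
    · have : Finset.Icc 2 6 = ({2, 3, 4, 5, 6} : Finset ℕ) := by decide
      rw [this]
      simp [t4, t6, t8, t10, t12, hc2]
      omega
  · -- `k ≥ 7`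
    set S := (Finset.Icc 2 k).filter (fun j => j ∣ M ∧ j < M) with hS
    set f := (k - 1) / 2 with hf
    set C := (M - 2).choose f with hC
    set Q := ((M + 1) / 2).choose 2 with hQ
    have hterm : ∀ j ∈ S, Q * (M / j - 2).choose ((k / j - 1) / 2) ≤ C := by
      intro j hj
      rw [hS, Finset.mem_filter, Finset.mem_Icc] at hj
      obtain ⟨⟨hj2, hjk⟩, hjM, hjlt⟩ := hj
      obtain ⟨c, hc⟩ := hjM
      have hMj : M / j = c := by rw [hc]; exact Nat.mul_div_cancel_left _ (by omega)
      have hc2 : 2 ≤ c := by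
        by_contra hcon
        have h1 : c ≤ 1 := by omega
        have : j * c ≤ j * 1 := Nat.mul_le_mul_left _ h1
        omega
      obtain ⟨t, ht⟩ : ∃ t, t = k / j := ⟨_, rfl⟩
      have ht1 : 1 ≤ t := by
        rw [ht]; exact (Nat.one_le_div_iff (by omega)).mpr hjk
      have ht2 : 2 * t ≤ k := by
        have h1 : j * t ≤ k := by rw [ht]; exact Nat.mul_div_le k j
        have h2 : 2 * t ≤ j * t := Nat.mul_le_mul_right _ hj2
        omega
      have hcM : 2 * c ≤ M := by
        rw [hc]; exact Nat.mul_le_mul_right _ hj2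
      rw [hMj, ← ht]
      have hd2 : 2 ≤ f - (t - 1) / 2 := by omega
      have hfle : (t - 1) / 2 ≤ f := by omega
      have hdle : f - (t - 1) / 2 + 2 ≤ M - c := by
        rcases Nat.lt_or_ge j 3 with h3 | h3
        · have hj' : j = 2 := by omega
          subst hj'
          have : t = k / 2 := ht
          omega
        · have h3c : 3 * c ≤ M := by
            rw [hc]; exact Nat.mul_le_mul_right _ h3
          omega
      have h1 := vdm (c - 2) (M - c) ((t - 1) / 2) (f - (t - 1) / 2)
      have e1 : c - 2 + (M - c) = M - 2 := by omega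
      have e2 : (t - 1) / 2 + (f - (t - 1) / 2) = f := by omega
      rw [e1, e2, ← hC] at h1
      have h2 : Q ≤ (M - c).choose (f - (t - 1) / 2) := by
        refine le_trans ?_ (choose_ge (M - c) 2 _ hd2 hdle)
        rw [hQ]
        exact Nat.choose_le_choose 2 (by omega)
      calc Q * (c - 2).choose ((t - 1) / 2)
          ≤ (M - c).choose (f - (t - 1) / 2) * (c - 2).choose ((t - 1) / 2) :=
            Nat.mul_le_mul_right _ h2
        _ = (c - 2).choose ((t - 1) / 2) * (M - c).choose (f - (t - 1) / 2) := by ring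
        _ ≤ C := h1
    have hsum : Q * ∑ j ∈ S, Nat.totient (2 * j) * (M / j - 2).choose ((k / j - 1) / 2) ≤
        C * ∑ j ∈ S, Nat.totient (2 * j) := by
      rw [Finset.mul_sum, Finset.mul_sum]
      refine Finset.sum_le_sum fun j hj => ?_
      calc Q * (Nat.totient (2 * j) * (M / j - 2).choose ((k / j - 1) / 2))
          = Nat.totient (2 * j) * (Q * (M / j - 2).choose ((k / j - 1) / 2)) := by ring
        _ ≤ Nat.totient (2 * j) * C := Nat.mul_le_mul_left _ (hterm j hj)
        _ = C * Nat.totient (2 * j) := by ring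
    have htot := tot_sum M (by omega) S (fun j hj => by
      rw [hS, Finset.mem_filter, Finset.mem_Icc] at hj
      exact ⟨hj.2.1, by omega⟩)
    set T := ∑ j ∈ S, Nat.totient (2 * j) * (M / j - 2).choose ((k / j - 1) / 2) with hT
    set Φ := ∑ j ∈ S, Nat.totient (2 * j) with hΦ
    -- sizes
    have hQ4 : 4 * M ≤ Q := by
      rw [hQ, Nat.choose_two_right]
      obtain ⟨e, he⟩ : ∃ e, (M + 1) / 2 = e + 18 := ⟨(M + 1) / 2 - 18, by omega⟩
      rw [he]
      have h1 : M ≤ 2 * (e + 18) := by omega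
      have h2 : e + 18 - 1 = e + 17 := by omega
      rw [h2, Nat.le_div_iff_mul_le (by norm_num)]
      nlinarith
    have hCM : M < C := by
      rw [hC]
      refine lt_of_lt_of_le ?_ (choose_ge (M - 2) 2 f (by omega) (by omega))
      rw [Nat.choose_two_right]
      obtain ⟨e, he⟩ : ∃ e, M = e + 35 := ⟨M - 35, by omega⟩
      rw [he]
      have e1 : e + 35 - 2 = e + 33 := by omega
      have e2 : e + 33 - 1 = e + 32 := by omega
      rw [e1, e2, Nat.lt_iff_add_one_le, Nat.le_div_iff_mul_le (by norm_num)]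
      nlinarith
    by_contra hcon
    have hcon' : C ≤ T + (k + 1) / 2 := by omega
    have h1 : Q * C ≤ Q * T + Q * ((k + 1) / 2) := by
      rw [← Nat.mul_add]; exact Nat.mul_le_mul_left _ hcon'
    have h2 : 2 * (C * Φ) ≤ 4 * M * C := by
      have : Φ ≤ 2 * M := by omega
      nlinarith
    have h3 : 2 * (Q * ((k + 1) / 2)) ≤ Q * M := by
      have : 2 * ((k + 1) / 2) ≤ M := by omega
      nlinarith
    have h4 : Q * M < Q * C := Nat.mul_lt_mul_of_pos_left hCM (by omega)
    have h5 : 4 * M * C ≤ Q * C := Nat.mul_le_mul_right _ hQ4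
    omega

end Pool.Agent.Helper45.SD
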