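import Pool.Agent.Helper45.SD.Asm
import Pool.Agent.Helper45.SD.CMP
import Pool.Agent.Helper45.SD.EI
import Pool.Agent.Helper65.SD.TR
import Pool.Agent.Helper65.SD.CNT
import Pool.Agent.Helper96.SD.EDGE
import Pool.Agent.Helper51.SD.DEG
import Pool.Agent.Helper51.SD.R34
import Pool.Agent.Helper51.SD.TH
import Pool.Agent.Helper89.SD.ID
import Pool.Agent.Helper89.SD.PROP
import Pool.Agent.Helper86.SD.EV
import Pool.Agent.Helper82.SD.RAM
import Pool.Agent.Helper82.SD.EVN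
import Pool.Agent.Helper31.SD.AVG
import Pool.Agent.Helper93.SD.SUF2
import Pool.Agent.Helper8.SD.BLK
import Pool.Agent.Helper8.SD.JC
import Pool.Agent.Helper6.SD.RGM
import Pool.Agent.Helper66.SD.SPL
import Pool.Agent.Helper66.SD.EX
import Pool.Agent.Helper83.SD.EP
import Pool.Agent.Helper73.SD.CX1
import Pool.Agent.Helper73.SD.JP
import Pool.Agent.Helper18.SD.II
import Pool.Agent.Helper50.SD.CX2

set_option autoImplicit false

/-!
# Question Q2 of MP_9415b6_co: all pieces together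
-/

namespace Pool.Agent.Helper45.SD

theorem main (n : ℕ) [NeZero n] (hn : 2 ≤ n) (k : ℕ) (hk : 1 ≤ k) (hkn : k ≤ n - 1)
    (x : ZMod n) :
    Pool.Agent.Helper51.SS.IsOneDesign (blocksStar n k x) ↔
      (k = n - 1 ∧ x = ∑ t : ZMod n, t) ∨
      (x = 0 ∧ 2 ≤ k ∧ k + 3 ≤ n ∧
        ((∀ q : ℕ, q.Prime → q ∣ n → k < q) ∨
         (∀ q : ℕ, q.Prime → q ∣ n → n - 1 - k < q) ∨
         (∀ q : ℕ, q.Prime → q ∣ n → (n - 1) ∣ k * (q - 1)))) := by
  have hdeg : G_DEG := Pool.Agent.Helper51.SD.deg_eq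
  have hrgm : G_RGM := Pool.Agent.Helper6.SD.rgm
  have hr1 : G_R1 := Pool.Agent.Helper6.SD.r1
  have hr3 : G_R3 := Pool.Agent.Helper51.SD.r3 hrgm
  have hr4 : G_R4 := Pool.Agent.Helper51.SD.r4 hrgm
  have hblk : G_BLK := Pool.Agent.Helper8.SD.blk
  have hdv : G_DV := Pool.Agent.Helper8.SD.dv
  have hspl : G_SPL := Pool.Agent.Helper66.SD.spl
  have hcnt : G_CNT := Pool.Agent.Helper65.SD.cnt
  have hid : G_ID := Pool.Agent.Helper89.SD.id_main
  have hev : G_EV := Pool.Agent.Helper86.SD.ev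
  have hep : G_EP := Pool.Agent.Helper83.SD.ep_pf hr4
  have ha0 : G_A0 := Pool.Agent.Helper89.SD.a0
  have hcmp : G_CMP := cmp hdeg
  exact classification Pool.Agent.Helper65.SD.tr Pool.Agent.Helper96.SD.edge
    Pool.Agent.Helper65.SD.ne Pool.Agent.Helper51.SD.low Pool.Agent.Helper96.SD.k2
    (Pool.Agent.Helper31.SD.avg hid hev Pool.Agent.Helper82.SD.ram)
    (Pool.Agent.Helper93.SD.suf2 hid hev Pool.Agent.Helper82.SD.inv hblk hcnt)
    (Pool.Agent.Helper82.SD.evn hspl hdv hr1 ei Pool.Agent.Helper66.SD.ex)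
    hep ha0 hr3 (Pool.Agent.Helper73.SD.jp hspl hdv hr1)
    (Pool.Agent.Helper8.SD.jc hspl hdv hr1 Pool.Agent.Helper18.SD.ii)
    (Pool.Agent.Helper51.SD.th hep ha0 hr3 hblk) Pool.Agent.Helper8.SD.exh
    (Pool.Agent.Helper89.SD.prop hblk hcnt hr3) (Pool.Agent.Helper73.SD.cx1 hcmp)
    (Pool.Agent.Helper50.SD.cx2 hcmp) Pool.Agent.Helper65.SD.cpl n hn k hk hkn x

end Pool.Agent.Helper45.SD
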