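import Pool.Agent.Helper45.SD.Defs

set_option autoImplicit false

/-!
# Question Q2 of MP_9415b6_co: statements of the packets
-/

open Finset

namespace Pool.Agent.Helper45.SD

/-! ### Elementary facts on the family -/

def G_TR : Prop := ∀ (n : ℕ) [NeZero n] (k : ℕ) (x : ZMod n),
  Pool.Agent.Helper51.SS.IsOneDesign (blocksStar n k x) ↔ (bl n k x).Nonempty ∧ Des n k x

def G_EDGE : Prop := ∀ (n : ℕ) [NeZero n] (x : ZMod n),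
  (3 ≤ n → ¬ ((bl n 1 x).Nonempty ∧ Des n 1 x)) ∧
  (3 ≤ n → ¬ ((bl n (n - 2) x).Nonempty ∧ Des n (n - 2) x)) ∧
  ((bl n (n - 1) x).Nonempty ∧ Des n (n - 1) x ↔ x = ∑ t : ZMod n, t)

def G_NE : Prop := ∀ (n : ℕ) [NeZero n] (k : ℕ) (x : ZMod n), 2 ≤ k → k + 3 ≤ n →
  (bl n k x).Nonempty

def G_CPL : Prop := ∀ (n : ℕ) [NeZero n] (k : ℕ) (x : ZMod n), k ≤ n - 1 → Des n k x →
  Des n (n - 1 - k) ((∑ t : ZMod n, t) - x)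

def G_DEG : Prop := ∀ (n : ℕ) [NeZero n] (k : ℕ) (x y : ZMod n), y ≠ 0 →
  (deg n k x y : ℤ) = ∑ j ∈ Finset.Icc 1 k, (-1) ^ (j - 1) * ((bl n (k - j) (x - j * y)).card : ℤ)

def G_LOW : Prop := ∀ (n : ℕ) [NeZero n] (k : ℕ) (x : ZMod n), 1 ≤ k → k < n →
  (∀ q : ℕ, q.Prime → q ∣ n → k < q) →
  ∃ C : ℤ, ∀ y : ZMod n, y ≠ 0 → (deg n k x y : ℤ) =
    C + (-1) ^ (k - 1) * (((Finset.Icc 1 k).filter (fun j => ((j : ℕ) : ZMod n) * y = x)).card : ℤ)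

def G_K2 : Prop := ∀ (n : ℕ) [NeZero n] (x : ZMod n), Even n → 5 ≤ n → ¬ Des n 2 x

/-! ### Characters -/

def G_ID : Prop := ∀ (n : ℕ) [NeZero n] (k : ℕ) (x : ZMod n), ∃ C0 : ℂ, ∀ l : ZMod n, l ≠ 0 →
  (n : ℂ) * ∑ y ∈ Finset.univ.erase (0 : ZMod n), (deg n k x y : ℂ) * psi n (l * y) =
    (n : ℂ) * Gd n k x l - C0

def G_EV : Prop := ∀ (n : ℕ) [NeZero n] (t : ℕ) (a : ZMod n),
  Es n t a = (-1) ^ t * ((ep (n / addOrderOf a) (t / addOrderOf a) : ℤ) : ℂ)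

def G_RAM : Prop := ∀ (n : ℕ) [NeZero n] (x : ZMod n) (s : ℕ), s ∣ n →
  ∑ a ∈ (Finset.univ : Finset (ZMod n)).filter (fun a => addOrderOf a = s), psi n (-(a * x)) =
    ((rg (Nat.gcd x.val n) s : ℤ) : ℂ)

def G_INV : Prop := ∀ (n : ℕ) [NeZero n] (k : ℕ) (x : ZMod n) (c : ℂ),
  (∀ l : ZMod n, l ≠ 0 →
    ∑ y ∈ Finset.univ.erase (0 : ZMod n), (deg n k x y : ℂ) * psi n (l * y) = c) → Des n k x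

def G_AVG : Prop := ∀ (n : ℕ) [NeZero n] (k : ℕ) (x : ZMod n), 2 ≤ n → k < n → Des n k x →
  AV n k (Nat.gcd x.val n)

def G_SUF2 : Prop := ∀ (n : ℕ) [NeZero n] (k : ℕ), 2 ≤ n → 1 ≤ k → k + 2 ≤ n → Exact n k →
  Des n k 0

/-! ### Arithmetic lemmas -/

def G_BLK : Prop := ∀ n k s u : ℕ, s ∣ n → 0 < n → u ∣ s → k < n →
  (s < n → ((n / s : ℕ) - 1 : ℤ) * Bs n k s u =
    ep (n / s) (k / s) * (((n / s : ℕ) - 1 : ℤ) * (Nu s u (k % s) : ℤ) -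
      ((k / s : ℕ) : ℤ) * (Nat.totient u : ℤ))) ∧
  Bs n k n u = (Nu n u k : ℤ)

def G_CNT : Prop := ∀ p s u X h A : ℕ, p.Prime → p ∣ u → u ∣ s → 0 < s → 1 ≤ h → h + 2 ≤ p →
  (p - 1) * X + h = s * A → (p - 1) * Nu s u X = Nat.totient u * A

def G_RGM : Prop := (∀ g s t : ℕ, 0 < g → Nat.Coprime s t → rg g (s * t) = rg g s * rg g t) ∧
  (∀ g : ℕ, rg g 1 = 1) ∧
  (∀ g l i : ℕ, l.Prime → 1 ≤ i → rg g (l ^ i) =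
    (if l ^ i ∣ g then ((l ^ i : ℕ) : ℤ) else 0) -
      (if l ^ (i - 1) ∣ g then ((l ^ (i - 1) : ℕ) : ℤ) else 0))

def G_R1 : Prop := ∀ p g s : ℕ, p.Prime → 0 < g → 0 < s → p ∣ s →
  ((p : ℤ) - 1) * |rg g s| ≤ (Nat.totient s : ℤ) * |rg g p| ∧ rg g p ≠ 0 ∧
    (rg g p = (p : ℤ) - 1 ∨ rg g p = -1)

def G_R3 : Prop := ∀ n g : ℕ, 0 < n → g ∣ n → ∃ s0 : ℕ, s0 ∣ n ∧
  (∀ q : ℕ, q.Prime → q ∣ n → q ∣ s0) ∧ rg g s0 ≠ 0 ∧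
  (∀ s : ℕ, s ∣ n → rg g s ≠ 0 → s ∣ s0) ∧ (∀ l : ℕ, l.Prime → l ∣ s0 → rg g (s0 / l) ≠ 0)

def G_R4 : Prop := ∀ p M g : ℕ, p.Prime → 0 < M → g ∣ p * M → rg g (p * M) ≠ 0 →
  rg g M ≠ 0 ∧
  (¬ p ∣ M → rg g (p * M) = ((p : ℤ) - 1) * rg g M ∨ rg g (p * M) = - rg g M) ∧
  (p ∣ M → rg g (p * M) = (p : ℤ) * rg g M ∨
    ((p : ℤ) - 1) * rg g (p * M) = - ((p : ℤ) * rg g M))

def G_SPL : Prop := ∀ p M k g : ℕ, p.Prime → 0 < M →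
  ∑ s ∈ (p * M).divisors, rg g s * Bs (p * M) k s p =
    ∑ j ∈ M.divisors, rg g (p * j) * D p (M / j) (k / j)

def G_DV : Prop := ∀ p M X : ℕ, 2 ≤ p →
  (2 ≤ M → ((M : ℤ) - 1) * D p M X =
    ep M (X / p) * (((M : ℤ) - 1) * ((X % p : ℕ) : ℤ) - ((p : ℤ) - 1) * ((X / p : ℕ) : ℤ)) ∧
    |D p M X| ≤ ((p : ℤ) - 1) * ((M - 1).choose (X / p) : ℤ)) ∧
  (X < p → D p 1 X = (X : ℤ))

def G_EXH : Prop := ∀ p M k : ℕ, 2 ≤ p → 2 ≤ M → 1 ≤ k → k + 2 ≤ p * M → D p M k = 0 →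
  ∃ h : ℕ, 1 ≤ h ∧ h + 2 ≤ p ∧ (p - 1) * k = h * (p * M - 1)

/-! ### The averaged equations imply exactness -/

def G_EP : Prop := ∀ p M k g : ℕ, p.Prime → 3 ≤ p → 2 ≤ M → Odd M →
  (∀ q : ℕ, q.Prime → q ∣ M → p ≤ q) → p ≤ k → k < M → g ∣ p * M → rg g (p * M) ≠ 0 →
  ¬ AV (p * M) k g

def G_A0 : Prop := ∀ n k g s0 : ℕ, 2 ≤ n → k < n → g ∣ n → s0 ∣ n → 1 < s0 →
  rg g s0 ≠ 0 → (∀ s : ℕ, s ∣ n → rg g s ≠ 0 → s ∣ s0) → rg g n = 0 → 1 ≤ k → AV n k g →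
  Bs n k s0 s0 = 0 ∧ s0 ≤ k

def G_JP : Prop := ∀ p M k g : ℕ, p.Prime → M.Prime → 3 ≤ p → p ≤ M → p ≤ k →
  2 * k + 1 ≤ p * M → g ∣ p * M → (M ≤ k ∨ rg g (p * M) = 0) → AV (p * M) k g → D p M k = 0

def G_II : Prop := ∀ p M F : ℕ, p.Prime → 3 ≤ p → Odd M → (∀ q : ℕ, q.Prime → q ∣ M → p ≤ q) →
  p * p ≤ M → 5 ≤ F → 2 * F + 1 ≤ M →
  (M - 1) * (∑ j ∈ M.divisors.filter (fun j => 1 < j ∧ j < M),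
    Nat.totient (p * j) * (M / j - 1).choose (F / j) + Nat.totient (p * M)) < (M - 1).choose F

def G_JC : Prop := ∀ p M k g : ℕ, p.Prime → 3 ≤ p → Odd M →
  (∀ q : ℕ, q.Prime → q ∣ M → p ≤ q) → p * p ≤ M → 5 ≤ k / p → 2 * k + 1 ≤ p * M →
  g ∣ p * M → AV (p * M) k g → D p M k = 0

def G_TH : Prop := ∀ m k g : ℕ, 3 ≤ m → 9 ≤ k → k ≤ 14 → 2 * k + 1 ≤ 3 ^ m → g ∣ 3 ^ m →
  AV (3 ^ m) k g → D 3 (3 ^ (m - 1)) k = 0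

def G_PROP : Prop := ∀ n p k h g : ℕ, 2 ≤ n → p.Prime → p ∣ n →
  (∀ q : ℕ, q.Prime → q ∣ n → p ≤ q) → 1 ≤ h → h + 2 ≤ p → (p - 1) * k = h * (n - 1) →
  g ∣ n → AV n k g → Exact n k

def G_EI : Prop := ∀ M k : ℕ, 4 ≤ M → 3 ≤ k → k + 1 ≤ M →
  (M, k) ∉ ({(4, 3), (6, 3), (6, 4), (6, 5), (8, 4), (12, 4)} : Finset (ℕ × ℕ)) →
  ∑ j ∈ M.divisors.filter (fun j => 1 < j ∧ j < M ∧ j ≤ k),
    Nat.totient (2 * j) * (M / j - 2).choose ((k / j - 1) / 2) + (k + 1) / 2 <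
    (M - 2).choose ((k - 1) / 2)

def G_EVN : Prop := ∀ M k g : ℕ, 4 ≤ M → 3 ≤ k → k + 1 ≤ M → g ∣ 2 * M → ¬ AV (2 * M) k g

def G_EX : Prop := ∀ M k g : ℕ,
  (M, k) ∈ ({(4, 3), (6, 3), (6, 4), (6, 5), (8, 4), (12, 4)} : Finset (ℕ × ℕ)) →
  g ∣ 2 * M → ¬ AV (2 * M) k g

/-! ### `x ≠ 0` in the exact case -/

def G_CMP : Prop := ∀ (q v N : ℕ), q.Prime → 1 ≤ v → ¬ q ∣ N → 0 < N →
  ∀ (n : ℕ) [NeZero n], n = q ^ v * N → ∀ (k : ℕ) (x y y' : ZMod n), y ≠ 0 → y' ≠ 0 →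
  (∃ i : ZMod n, y' = y + i * ((q ^ (v - 1) * N : ℕ) : ZMod n)) →
  (deg n k x y : ℤ) - deg n k x y' = (-1) ^ (k - 1) * ∑ j ∈ Finset.Icc 1 k,
    (-1) ^ ((k - j) / q ^ v) * ((Bp n (q ^ v) N ((k - j) / q ^ v) (x - j * y) : ℤ) -
      (Bp n (q ^ v) N ((k - j) / q ^ v) (x - j * y') : ℤ))

def G_CX1 : Prop := ∀ (q v N : ℕ), q.Prime → 1 ≤ v → ¬ q ∣ N → 0 < N →
  ∀ (n : ℕ) [NeZero n], n = q ^ v * N → Odd n → ∀ (k : ℕ) (x : ZMod n), 1 ≤ k →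
  2 * k + 1 ≤ n → Exact n k → ¬ q ^ v ∣ x.val →
  (∃ L ∈ (Finset.Ico 1 N).powersetCard (k / q ^ v),
    ((q ^ v * ∑ i ∈ L, i : ℕ) : ZMod N) = ((x.val : ℕ) : ZMod N)) → ¬ Des n k x

def G_CX2 : Prop := ∀ (q v N : ℕ), q.Prime → 1 ≤ v → N.Prime → N ≠ q →
  ∀ (n : ℕ) [NeZero n], n = q ^ v * N → Odd n → ∀ (k : ℕ) (x : ZMod n), 1 ≤ k →
  k * (N - 1) = n - 1 → Exact n k → ¬ q ^ v ∣ x.val → N ∣ x.val → ¬ Des n k x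

end Pool.Agent.Helper45.SD
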