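import Pool.Agent.Helper71.SD.Goals

/-! Packet NONE for MP_dcced1_gt. -/

namespace Pool.Agent.Helper71.SD.NONE

open Pool.Agent.Helper71.AHtpy SimpleGraph

theorem lev_near {V : Type} {G : SimpleGraph V} {n : ℕ} {p q : Quotient (suspSetoid V n)}
    (h : Near (Susp G n) p q) : lev p ≤ lev q + 1 := by
  rw [← pt_lab_lev p, ← pt_lab_lev q] at h
  rw [near_pt_iff (lev_le p) (lev_le q)] at h
  exact h.1.1

theorem mid_ne {a : E} {S : Finset E} : C0.mid S ≠ C0.mid (tog a S) := by
  intro h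
  injection h with h
  exact tog_ne a S h.symm

section

variable {V : Type} {G : SimpleGraph V} (A : Amb G)

theorem excl_base {x y : C0} (hxy : x ≠ y) {l m : ℕ} (hl : 2 ≤ l ∧ l ≤ 4)
    (hm : 2 ≤ m ∧ m ≤ 4) (hlm : l ≠ m)
    (h : Near (Susp G 6) (pt 6 (A.b x) l) (pt 6 (A.b y) m)) : False := by
  rw [near_pt_iff (by omega) (by omega)] at h
  rcases h.2 with h | h | h | h | h | h
  · omega
  · omega
  · omega
  · omega
  · exact hxy (A.b_inj h)
  · exact hlm h.1

theorem excl_foot {S T : Finset E} (hST : S ≠ T) {l : ℕ} (hl : 2 ≤ l ∧ l ≤ 4) {v : V}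
    (hv : A.ft v = some T)
    (h : Near (Susp G 6) (pt 6 (A.b (.mid S)) l) (pt 6 v 3)) : False := by
  rw [near_pt_iff (by omega) (by omega)] at h
  rcases h.2 with h | h | h | h | h | h
  · omega
  · omega
  · omega
  · omega
  · rw [← h, A.ft_b] at hv
    cases hv
  · have := A.ft_nbr v T (.mid S) hv h.2.symm
    injection this with this
    exact hST this

end

theorem none_case : S_NBR → S_LBL → S_CONN → S_NOUP → S_LEVB → S_XC1 → S_XC2 → S_NONE := by
  intro hNBR hLBL hCONN hNOUP hLEVB _ _ V G A σ₀ σ₁ hP hl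
  have g1 := hP.g1
  -- the four types
  have typ : ∀ S, Bd 2 S → (∃ l, 2 ≤ l ∧ l ≤ 4 ∧ σ₁ S = pt 6 (A.b (.mid S)) l) ∨
      ∃ v, A.ft v = some S ∧ σ₁ S = pt 6 v 3 := by
    intro S hS
    have h6 : Bd 6 S := by
      unfold Bd at *
      omega
    rcases (hNBR V G A σ₀ σ₁ hP S h6).2 with h | h | h | h | h
    · exact Or.inl ⟨3, by omega, by omega, h⟩
    · exact Or.inl ⟨2, by omega, by omega, h⟩
    · exact Or.inl ⟨4, by omega, by omega, h⟩
    · obtain ⟨a, ha⟩ := h
      have := (hLBL V G A σ₁ S a).2 ha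
      rw [hl S hS] at this
      cases this
    · exact Or.inr h
  have edge : ∀ (S : Finset E) (a : E), Near (Susp G 6) (σ₁ S) (σ₁ (tog a S)) :=
    fun S a => g1 S (tog a S) ⟨a, rfl⟩
  -- base types propagate
  have stepB : ∀ l, 2 ≤ l → l ≤ 4 → ∀ S a, Bd 2 S → Bd 2 (tog a S) →
      σ₁ S = pt 6 (A.b (.mid S)) l → σ₁ (tog a S) = pt 6 (A.b (.mid (tog a S))) l := by
    intro l hl1 hl2 S a _ hT hS
    rcases typ _ hT with ⟨m, hm1, hm2, hm⟩ | ⟨v, hv, hm⟩
    · by_cases hlm : l = m
      · rw [hlm]; exact hm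
      · exfalso
        have := edge S a
        rw [hS, hm] at this
        exact excl_base A mid_ne ⟨hl1, hl2⟩ ⟨hm1, hm2⟩ hlm this
    · exfalso
      have := edge S a
      rw [hS, hm] at this
      exact excl_foot A (tog_ne a S).symm ⟨hl1, hl2⟩ hv this
  have stepF : ∀ S a, Bd 2 S → Bd 2 (tog a S) →
      (∃ v, A.ft v = some S ∧ σ₁ S = pt 6 v 3) →
      ∃ v, A.ft v = some (tog a S) ∧ σ₁ (tog a S) = pt 6 v 3 := by
    rintro S a _ hT ⟨v, hv, hS⟩
    rcases typ _ hT with ⟨m, hm1, hm2, hm⟩ | h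
    · exfalso
      have := (edge S a).symm
      rw [hS, hm] at this
      exact excl_foot A (tog_ne a S) ⟨hm1, hm2⟩ hv this
    · exact h
  obtain ⟨S₀, -, hS₀⟩ := Finset.exists_subset_card_eq (s := (Finset.univ : Finset E)) (n := 30)
    (by simp)
  have hB₀ : Bd 2 S₀ := by
    unfold Bd
    omega
  have hcard : ∀ S : Finset E, S.card = 30 → Bd 2 S := by
    intro S hS
    unfold Bd
    omega
  rcases typ S₀ hB₀ with ⟨l, hl1, hl2, h0⟩ | h0
  · have all : ∀ S, Bd 2 S → σ₁ S = pt 6 (A.b (.mid S)) l := by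
      intro S hS
      exact hCONN 2 (fun S => σ₁ S = pt 6 (A.b (.mid S)) l) (by omega) (by omega)
        (stepB l hl1 hl2) S₀ S hB₀ hS h0
    have h234 : l = 2 ∨ l = 3 ∨ l = 4 := by omega
    rcases h234 with rfl | rfl | rfl
    · exfalso
      obtain ⟨z, hz, hlev⟩ := (hNOUP V G A σ₁ g1).2 fun S hS => all S (hcard S hS)
      have h1 := lev_near (hP.near zᶜ)
      have h2 := (hLEVB V G A σ₀ hP.ess).2 z hz
      omega
    · exact all
    · exfalso
      obtain ⟨z, hz, hlev⟩ := (hNOUP V G A σ₁ g1).1 fun S hS => all S (hcard S hS)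
      have h1 := lev_near (hP.near z).symm
      have h2 := (hLEVB V G A σ₀ hP.ess).1 z hz
      omega
  · exfalso
    have all : ∀ S, Bd 2 S → ∃ v, A.ft v = some S ∧ σ₁ S = pt 6 v 3 := by
      intro S hS
      exact hCONN 2 (fun S => ∃ v, A.ft v = some S ∧ σ₁ S = pt 6 v 3) (by omega) (by omega)
        stepF S₀ S hB₀ hS h0
    classical
    have hcb : ∀ S, Core S → Bd 2 S := by
      intro S hS
      unfold Core at hS
      unfold Bd
      omega
    refine A.no_lift ⟨fun S => if h : Core S then (all S (hcb S h)).choose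
      else A.b (.mid ∅), ?_, ?_⟩
    · intro S hS
      simp only [hS, dif_pos]
      exact (all S (hcb S hS)).choose_spec.1
    · intro S T hS hT hadj
      simp only [hS, hT, dif_pos]
      have e1 := (all S (hcb S hS)).choose_spec
      have e2 := (all T (hcb T hT)).choose_spec
      have hn := g1 S T hadj
      rw [e1.2, e2.2, near_pt_iff (by omega) (by omega)] at hn
      rcases hn.2 with h | h | h | h | h | h
      · omega
      · omega
      · omega
      · omega
      · exfalso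
        have e3 := e1.1
        rw [h, e2.1] at e3
        injection e3 with e3
        exact hadj.ne e3.symm
      · exact h.2

end Pool.Agent.Helper71.SD.NONE
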